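import Pool.Agent.Lib.MP_5d54af_an.Main

/-!
Zeros of Taylor sections of a non-constant zero-free entire function: `|f|` is arbitrarily small at
zeros of sections of arbitrarily large index.
-/

set_option autoImplicit false

namespace Pool.Agent.Results.MP_5d54af_an.Taylor

open Polynomial in
theorem finite_zeros (a : ℕ → ℂ) (h0 : a 0 ≠ 0) (n : ℕ) :
    {z : ℂ | ∑ k ∈ Finset.range (n + 1), a k * z ^ k = 0}.Finite := by
  have hp : (∑ k ∈ Finset.range (n + 1), C (a k) * X ^ k : ℂ[X]) ≠ 0 := by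
    intro h
    have := congrArg (eval 0) h
    rw [eval_finsetSum, Finset.sum_range_succ'] at this
    simp [h0] at this
  refine (Polynomial.finite_setOfPred_isRoot hp).subset fun z hz => ?_
  simpa [IsRoot, eval_finsetSum] using hz

theorem result (f : ℂ → ℂ) (hf : Differentiable ℂ f) (h0 : ∀ z, f z ≠ 0)
    (hc : ∃ z w, f z ≠ f w) (ε : ℝ) (hε : 0 < ε) (N : ℕ) :
    ∃ n, N ≤ n ∧ ∃ z₀ : ℂ,
      ∑ k ∈ Finset.range (n + 1), iteratedDeriv k f 0 / (k.factorial : ℂ) * z₀ ^ k = 0 ∧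
        ‖f z₀‖ < ε := by
  set a : ℕ → ℂ := fun k => iteratedDeriv k f 0 / (k.factorial : ℂ) with ha
  have hs : ∀ z, HasSum (fun k => a k * z ^ k) (f z) := fun z => by
    have h := Complex.hasSum_taylorSeries_of_entire hf 0 z
    have e : (fun k => a k * z ^ k) =
        fun k : ℕ => (k.factorial : ℂ)⁻¹ • (z - 0) ^ k • iteratedDeriv k f 0 := by
      funext k
      simp only [ha, smul_eq_mul, sub_zero]
      ring
    rw [e]
    exact h
  have ha0 : a 0 ≠ 0 := by simpa [ha] using h0 0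
  have hfin : (⋃ n ∈ Set.Iio N, {z : ℂ | ∑ k ∈ Finset.range (n + 1), a k * z ^ k = 0}).Finite :=
    (Set.finite_Iio N).biUnion fun n _ => finite_zeros a ha0 n
  obtain ⟨δ, hδ, hδ'⟩ : ∃ δ : ℝ, 0 < δ ∧ ∀ z ∈ ⋃ n ∈ Set.Iio N,
      {z : ℂ | ∑ k ∈ Finset.range (n + 1), a k * z ^ k = 0}, δ ≤ ‖f z‖ := by
    rcases Set.eq_empty_or_nonempty (⋃ n ∈ Set.Iio N,
      {z : ℂ | ∑ k ∈ Finset.range (n + 1), a k * z ^ k = 0}) with he | hne
    · exact ⟨1, one_pos, fun z hz => by rw [he] at hz; exact hz.elim⟩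
    · obtain ⟨z, -, hz⟩ := Set.exists_min_image _ (fun z => ‖f z‖) hfin hne
      exact ⟨‖f z‖, norm_pos_iff.2 (h0 z), hz⟩
  obtain ⟨z₀, n, h1, h2⟩ := Pool.Agent.Lib.MP_5d54af_an.main a f hs h0 hc (min ε δ) (lt_min hε hδ)
  refine ⟨n, ?_, z₀, h1, h2.trans_le (min_le_left _ _)⟩
  by_contra hn
  have := hδ' z₀ (Set.mem_biUnion (not_le.1 hn) h1)
  exact absurd (h2.trans_le (min_le_right _ _)) (not_lt.2 this)

end Pool.Agent.Results.MP_5d54af_an.Taylor
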